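import Mathlib
import Pool.Agent.H502U.Cpt
import Pool.Agent.Helper203.HStmt

set_option autoImplicit false

open Complex Metric Set Filter MeasureTheory ContinuousLinearMap
open scoped Real Topology ComplexConjugate ENNReal

open Pool.Agent.Helper203.Hardy

namespace Pool.Agent.Results.MP_eb20fa_an.UATCharacterisation

theorem isMz_Mz : IsMz Mz := fun f _ hz => ev_Mz f (mem_ball_zero_iff.1 hz)

theorem eval_inj {f g : HS} (h : ∀ z ∈ ball (0 : ℂ) 1, eval f z = eval g z) : f = g :=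
  ev_injective (f := f) (g := g) h

theorem isMz_unique {S S' : Op} (h : IsMz S) (h' : IsMz S') : S = S' := by
  ext1 f
  apply eval_inj
  intro z hz
  exact (h f z hz).trans (h' f z hz).symm

/-- Characterisation of the analytic self-maps `φ` of the disc for which `C_φ^* C_φ` is uniformly
asymptotically Toeplitz on `H²`. With `φ` also denoting the radial boundary function, the following
are equivalent:
* `C_φ^* C_φ` is UAT;
* the restriction to the open disc of the pull-back measure `m φ⁻¹` is a vanishing Carleson measure;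
* `∫_{|φ| < 1} (1 - |a|²) / |1 - conj a φ|² dm → 0` as `|a| → 1`;
* `f ↦ 1_{|φ| < 1} · (f ∘ φ)` is a compact operator from `H²` to `L²(m)`: it maps bounded
  sequences of `H²` converging to zero pointwise on the disc to sequences converging to zero
  in `L²(m)`. -/
theorem result (φ : ℂ → ℂ) (hφ : DifferentiableOn ℂ φ (ball 0 1))
    (hm : MapsTo φ (ball (0 : ℂ) 1) (ball 0 1)) :
    (∀ᵐ θ ∂mT, Tendsto (fun r : ℝ => φ (circleMap 0 r θ)) (𝓝[<] 1) (𝓝 (bv φ θ))) ∧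
    (∃! S : Op, IsMz S) ∧
    (∃! C : Op, IsCompOp φ C) ∧
    ∀ S C : Op, IsMz S → IsCompOp φ C →
      List.TFAE [
        UAT S (star C * C),
        VanishingCarleson (pull φ),
        ∀ ε > 0, ∃ δ > 0, ∀ a : ℂ, 1 - δ < ‖a‖ → ‖a‖ < 1 →
          ∫⁻ θ, (if ‖bv φ θ‖ < 1 then
            ENNReal.ofReal ((1 - ‖a‖ ^ 2) / ‖1 - conj a * bv φ θ‖ ^ 2) else 0) ∂mT ≤
              ENNReal.ofReal ε,
        ∀ F : ℕ → HS, (∃ M : ℝ, ∀ n, ‖F n‖ ≤ M) →
          (∀ z ∈ ball (0 : ℂ) 1, Tendsto (fun n => eval (F n) z) atTop (𝓝 0)) →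
          Tendsto (fun n => ∫⁻ θ, (if ‖bv φ θ‖ < 1 then
            ENNReal.ofReal (‖eval (F n) (bv φ θ)‖ ^ 2) else 0) ∂mT) atTop (𝓝 0)] := by
  refine ⟨bv_tendsto hφ hm, ⟨Mz, isMz_Mz, fun S hS => isMz_unique hS isMz_Mz⟩, ?_, ?_⟩
  · obtain ⟨C, hC⟩ := exists_comp hφ hm
    refine ⟨C, hC, fun C' hC' => ?_⟩
    ext1 f
    apply eval_inj
    intro z hz
    exact (hC' f z hz).trans (hC f z hz).symm
  · intro S C hS hC
    have hSe : S = Mz := isMz_unique hS isMz_Mz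
    have hC' : ∀ f : H2, ∀ z ∈ ball (0 : ℂ) 1, ev ((id C : H2 →L[ℂ] H2) f) z = ev f (φ z) := hC
    have hU : UAT S (star C * C) ↔
        ∃ L : H2 →L[ℂ] H2,
          Tendsto (fun n => compress (adjoint (id C : H2 →L[ℂ] H2) ∘L (id C : H2 →L[ℂ] H2)) n)
            atTop (𝓝 L) := by
      rw [hSe]
      exact Iff.rfl
    have hK : (∀ ε > 0, ∃ δ > 0, ∀ a : ℂ, 1 - δ < ‖a‖ → ‖a‖ < 1 →
          ∫⁻ θ, (if ‖bv φ θ‖ < 1 then
            ENNReal.ofReal ((1 - ‖a‖ ^ 2) / ‖1 - conj a * bv φ θ‖ ^ 2) else 0) ∂mT ≤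
              ENNReal.ofReal ε) ↔ Pool.Agent.H502U.KT (pull φ) := by
      unfold Pool.Agent.H502U.KT
      have e : ∀ a : ℂ, ∫⁻ z, ENNReal.ofReal (kr a z) ∂(pull φ) =
          ∫⁻ θ, (if ‖bv φ θ‖ < 1 then
            ENNReal.ofReal ((1 - ‖a‖ ^ 2) / ‖1 - conj a * bv φ θ‖ ^ 2) else 0) ∂mT := by
        intro a
        exact Pool.Agent.H502U.lint_pull (ENNReal.measurable_ofReal.comp (kr_cont a)) hφ hm
      simp only [e]
    have hP : (∀ F : ℕ → HS, (∃ M : ℝ, ∀ n, ‖F n‖ ≤ M) →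
          (∀ z ∈ ball (0 : ℂ) 1, Tendsto (fun n => eval (F n) z) atTop (𝓝 0)) →
          Tendsto (fun n => ∫⁻ θ, (if ‖bv φ θ‖ < 1 then
            ENNReal.ofReal (‖eval (F n) (bv φ θ)‖ ^ 2) else 0) ∂mT) atTop (𝓝 0)) ↔
        (∀ F : ℕ → H2, (∃ M : ℝ, ∀ n, ‖F n‖ ≤ M) →
          (∀ z ∈ ball (0 : ℂ) 1, Tendsto (fun n => ev (F n) z) atTop (𝓝 0)) →
          Tendsto (fun n => ∫⁻ z, ENNReal.ofReal (‖ev (F n) z‖ ^ 2) ∂(pull φ)) atTop (𝓝 0)) := by
      have e : ∀ F : ℕ → H2, (fun n => ∫⁻ z, ENNReal.ofReal (‖ev (F n) z‖ ^ 2) ∂(pull φ)) =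
          fun n => ∫⁻ θ, (if ‖bv φ θ‖ < 1 then
            ENNReal.ofReal (‖ev (F n) (bv φ θ)‖ ^ 2) else 0) ∂mT := by
        intro F
        funext n
        exact Pool.Agent.H502U.lint_pull' hφ hm (ev_diff (F n)).continuousOn
      simp only [e]
      exact Iff.rfl
    rw [hU, hK, hP]
    tfae_have 1 → 3 := fun ⟨L, hL⟩ => Pool.Agent.H502U.kt_of_lim hφ hm hC' hL
    tfae_have 3 → 1 := fun hk => Pool.Agent.H502U.lim_of_kt hφ hm hC' hk
    tfae_have 3 → 2 := fun hk => Pool.Agent.H502U.vc_of_kt (Pool.Agent.H502U.pull_ae φ) hk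
    tfae_have 2 → 3 := fun hv =>
      Pool.Agent.H502U.kt_of_vc (Pool.Agent.H502U.pull_univ_le hφ hm) (Pool.Agent.H502U.pull_ae φ) hv
    tfae_have 3 → 4 := fun hk F ⟨M, hM⟩ h0 => Pool.Agent.H502U.cpt_of_kt hk F hM h0
    tfae_have 4 → 3 := fun h => Pool.Agent.H502U.kt_of_cpt h
    tfae_finish

end Pool.Agent.Results.MP_eb20fa_an.UATCharacterisation
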